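import Mathlib
import Pool.Agent.H505R3.PRE.Prog

set_option autoImplicit false
set_option linter.unusedSectionVars false

/-!
# Few free parameters and gradients

If the polynomial `h` lies in the field generated over `K` by the variables in `T` and by a set `R`
of rational functions which do not depend on `T`, then the gradients, in directions outside `T`, of
the polynomials obtained from `h` by substituting constants for the variables in `T` span a space of
dimension at most `|R|` at every point.
-/

namespace Pool.Agent.TH687.ON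

open MvPolynomial Pool.Agent.H505R3.PRE

variable {K σ ω : Type*} [Field K]

/-- the derivative in the direction with coordinates `b v w` -/
noncomputable def D (b : σ → ω → K) (w : ω) :
    Derivation K (MvPolynomial σ K) (MvPolynomial σ K) :=
  mkDerivation K fun v => C (b v w)

lemma D_X (b : σ → ω → K) (w : ω) (v : σ) : D b w (X v) = C (b v w) := by
  rw [D, mkDerivation_X]

lemma D_C (b : σ → ω → K) (w : ω) (a : K) : D b w (C a) = 0 := by
  exact (D b w).map_algebraMap a

lemma D_mem_supported (b : σ → ω → K) (w : ω) {S : Set σ} {f : MvPolynomial σ K}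
    (hf : f ∈ supported K S) : D b w f ∈ supported K S := by
  rw [supported_eq_adjoin_X] at hf ⊢
  induction hf using Algebra.adjoin_induction with
  | mem x hx =>
    obtain ⟨v, _, rfl⟩ := hx
    rw [D_X]
    exact Subalgebra.algebraMap_mem _ _
  | algebraMap a =>
    have : D b w (algebraMap K (MvPolynomial σ K) a) = 0 := D_C b w a
    rw [this]
    exact Subalgebra.zero_mem _
  | add x y hx hy h1 h2 =>
    rw [map_add]
    exact Subalgebra.add_mem _ h1 h2
  | mul x y hx hy h1 h2 =>
    rw [Derivation.leibniz, smul_eq_mul, smul_eq_mul]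
    exact Subalgebra.add_mem _ (Subalgebra.mul_mem _ hx h2) (Subalgebra.mul_mem _ hy h1)

section sub

open Classical in
/-- substitution of the constants `ξ` for the variables in `T` -/
noncomputable def sub (T : Set σ) (ξ : σ → K) : MvPolynomial σ K →ₐ[K] MvPolynomial σ K :=
  aeval fun v => if v ∈ T then C (ξ v) else X v

lemma sub_X_mem {T : Set σ} (ξ : σ → K) {v : σ} (hv : v ∈ T) : sub T ξ (X v) = C (ξ v) := by
  rw [sub, aeval_X, if_pos hv]

lemma sub_X_not {T : Set σ} (ξ : σ → K) {v : σ} (hv : v ∉ T) : sub T ξ (X v) = X v := by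
  rw [sub, aeval_X, if_neg hv]

lemma sub_C (T : Set σ) (ξ : σ → K) (a : K) : sub T ξ (C a) = C a :=
  (sub T ξ).commutes a

lemma sub_supported {T : Set σ} (ξ : σ → K) {f : MvPolynomial σ K}
    (hf : f ∈ supported K Tᶜ) : sub T ξ f = f := by
  rw [supported_eq_adjoin_X] at hf
  induction hf using Algebra.adjoin_induction with
  | mem x hx =>
    obtain ⟨v, hv, rfl⟩ := hx
    exact sub_X_not ξ hv
  | algebraMap a => exact sub_C T ξ a
  | add x y hx hy h1 h2 => rw [map_add, h1, h2]
  | mul x y hx hy h1 h2 => rw [map_mul, h1, h2]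

lemma D_sub (b : σ → ω → K) {T : Set σ} (hb : ∀ v ∈ T, b v = 0) (w : ω) (ξ : σ → K)
    (f : MvPolynomial σ K) : D b w (sub T ξ f) = sub T ξ (D b w f) := by
  induction f using MvPolynomial.induction_on with
  | C a => rw [sub_C, D_C, map_zero]
  | add f g hf hg => rw [map_add, map_add, map_add, map_add, hf, hg]
  | mul_X f u hf =>
    rw [map_mul, Derivation.leibniz, Derivation.leibniz, hf, map_add]
    simp only [smul_eq_mul, map_mul]
    congr 1
    congr 1
    by_cases hu : u ∈ T
    · rw [sub_X_mem ξ hu, D_C, D_X, hb u hu, Pi.zero_apply, map_zero, map_zero]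
    · rw [sub_X_not ξ hu, D_X, sub_C]

lemma eval_sub (T : Set σ) (ξ x : σ → K) (hx : ∀ v, v ∉ T → x v = ξ v)
    (f : MvPolynomial σ K) : eval x (sub T ξ f) = eval ξ f := by
  induction f using MvPolynomial.induction_on with
  | C a => rw [sub_C, eval_C, eval_C]
  | add f g hf hg => rw [map_add, map_add, map_add, hf, hg]
  | mul_X f u hf =>
    rw [map_mul, map_mul, map_mul, hf]
    congr 1
    by_cases hu : u ∈ T
    · rw [sub_X_mem ξ hu, eval_C, eval_X]
    · rw [sub_X_not ξ hu, eval_X, eval_X, hx u hu]

end sub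

section dual

variable {L : Type*} [Field L] [Algebra (MvPolynomial σ K) L] [IsFractionRing (MvPolynomial σ K) L]

/-- the dual number of a polynomial -/
noncomputable def dualPoly (L : Type*) [Field L] [Algebra (MvPolynomial σ K) L]
    (E : Derivation K (MvPolynomial σ K) (MvPolynomial σ K)) :
    MvPolynomial σ K →+* TrivSqZeroExt L L where
  toFun f := TrivSqZeroExt.inl (algebraMap _ L f) + TrivSqZeroExt.inr (algebraMap _ L (E f))
  map_one' := by
    rw [map_one, Derivation.map_one_eq_zero, map_zero, TrivSqZeroExt.inr_zero, add_zero,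
      TrivSqZeroExt.inl_one]
  map_mul' f g := by
    ext
    · simp only [TrivSqZeroExt.fst_add, TrivSqZeroExt.fst_inl, TrivSqZeroExt.fst_inr,
        TrivSqZeroExt.fst_mul, add_zero, map_mul]
    · rw [Derivation.leibniz]
      simp only [TrivSqZeroExt.snd_add, TrivSqZeroExt.snd_inl, TrivSqZeroExt.snd_inr,
        TrivSqZeroExt.snd_mul, TrivSqZeroExt.fst_add, TrivSqZeroExt.fst_inl,
        TrivSqZeroExt.fst_inr, add_zero, zero_add, smul_eq_mul, map_add, map_mul,
        MulOpposite.smul_eq_mul_unop, MulOpposite.unop_op]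
      rw [mul_comm (algebraMap (MvPolynomial σ K) L g)]
  map_zero' := by
    rw [map_zero, map_zero, map_zero, TrivSqZeroExt.inr_zero, add_zero, TrivSqZeroExt.inl_zero]
  map_add' f g := by
    ext
    · simp only [TrivSqZeroExt.fst_add, TrivSqZeroExt.fst_inl, TrivSqZeroExt.fst_inr,
        add_zero, map_add]
    · simp only [TrivSqZeroExt.snd_add, TrivSqZeroExt.snd_inl, TrivSqZeroExt.snd_inr,
        zero_add, map_add]

lemma dualPoly_fst (E : Derivation K (MvPolynomial σ K) (MvPolynomial σ K))
    (f : MvPolynomial σ K) : (dualPoly L E f).fst = algebraMap _ L f := by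
  show (TrivSqZeroExt.inl (algebraMap _ L f) + TrivSqZeroExt.inr (algebraMap _ L (E f)) :
    TrivSqZeroExt L L).fst = _
  rw [TrivSqZeroExt.fst_add, TrivSqZeroExt.fst_inl, TrivSqZeroExt.fst_inr, add_zero]

lemma dualPoly_snd (E : Derivation K (MvPolynomial σ K) (MvPolynomial σ K))
    (f : MvPolynomial σ K) : (dualPoly L E f).snd = algebraMap _ L (E f) := by
  show (TrivSqZeroExt.inl (algebraMap _ L f) + TrivSqZeroExt.inr (algebraMap _ L (E f)) :
    TrivSqZeroExt L L).snd = _
  rw [TrivSqZeroExt.snd_add, TrivSqZeroExt.snd_inl, TrivSqZeroExt.snd_inr, zero_add]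

lemma dualPoly_unit (E : Derivation K (MvPolynomial σ K) (MvPolynomial σ K))
    (f : nonZeroDivisors (MvPolynomial σ K)) : IsUnit (dualPoly L E f) := by
  rw [TrivSqZeroExt.isUnit_iff_isUnit_fst, dualPoly_fst]
  apply IsUnit.mk0
  intro h
  have h2 : (f : MvPolynomial σ K) = 0 :=
    IsFractionRing.injective (MvPolynomial σ K) L (h.trans (map_zero _).symm)
  exact nonZeroDivisors.ne_zero f.2 h2

/-- the dual number of a rational function -/
noncomputable def dual (L : Type*) [Field L] [Algebra (MvPolynomial σ K) L]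
    [IsFractionRing (MvPolynomial σ K) L]
    (E : Derivation K (MvPolynomial σ K) (MvPolynomial σ K)) : L →+* TrivSqZeroExt L L :=
  IsLocalization.lift (M := nonZeroDivisors (MvPolynomial σ K)) (dualPoly_unit (L := L) E)

lemma dual_emb (E : Derivation K (MvPolynomial σ K) (MvPolynomial σ K)) (f : MvPolynomial σ K) :
    dual L E (algebraMap _ L f) = dualPoly L E f := by
  rw [dual, IsLocalization.lift_eq]

/-- The elements killed by the derivation. -/
def Killed (L : Type*) [Field L] [Algebra (MvPolynomial σ K) L]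
    [IsFractionRing (MvPolynomial σ K) L]
    (E : Derivation K (MvPolynomial σ K) (MvPolynomial σ K)) (x : L) : Prop :=
  dual L E x = TrivSqZeroExt.inl x

lemma Killed.add {E : Derivation K (MvPolynomial σ K) (MvPolynomial σ K)} {x y : L}
    (hx : Killed L E x) (hy : Killed L E y) : Killed L E (x + y) := by
  unfold Killed at *
  rw [map_add, hx, hy, TrivSqZeroExt.inl_add]

lemma Killed.mul {E : Derivation K (MvPolynomial σ K) (MvPolynomial σ K)} {x y : L}
    (hx : Killed L E x) (hy : Killed L E y) : Killed L E (x * y) := by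
  unfold Killed at *
  rw [map_mul, hx, hy, ← TrivSqZeroExt.inl_mul]

lemma Killed.inv {E : Derivation K (MvPolynomial σ K) (MvPolynomial σ K)} {x : L}
    (hx : Killed L E x) : Killed L E x⁻¹ := by
  unfold Killed at *
  by_cases h0 : x = 0
  · rw [h0, inv_zero, map_zero, TrivSqZeroExt.inl_zero]
  · have h1 : dual L E x * dual L E x⁻¹ = 1 := by
      rw [← map_mul, mul_inv_cancel₀ h0, map_one]
    have h2 : (TrivSqZeroExt.inl x⁻¹ : TrivSqZeroExt L L) * dual L E x = 1 := by
      rw [hx, ← TrivSqZeroExt.inl_mul, inv_mul_cancel₀ h0, TrivSqZeroExt.inl_one]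
    exact (left_inv_eq_right_inv h2 h1).symm

lemma killed_emb {E : Derivation K (MvPolynomial σ K) (MvPolynomial σ K)} {f : MvPolynomial σ K} :
    Killed L E (algebraMap _ L f) ↔ E f = 0 := by
  unfold Killed
  rw [dual_emb]
  constructor
  · intro h
    have h1 := congrArg TrivSqZeroExt.snd h
    rw [dualPoly_snd, TrivSqZeroExt.snd_inl] at h1
    exact IsFractionRing.injective (MvPolynomial σ K) L (h1.trans (map_zero _).symm)
  · intro h
    ext
    · rw [dualPoly_fst, TrivSqZeroExt.fst_inl]
    · rw [dualPoly_snd, h, map_zero, TrivSqZeroExt.snd_inl]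

lemma killed_div {E : Derivation K (MvPolynomial σ K) (MvPolynomial σ K)}
    {n d : MvPolynomial σ K} (hd : d ≠ 0) (h : d * E n - n * E d = 0) :
    Killed L E (algebraMap _ L n / algebraMap _ L d) := by
  have hd' : algebraMap _ L d ≠ 0 := by
    intro h'
    exact hd (IsFractionRing.injective (MvPolynomial σ K) L (h'.trans (map_zero _).symm))
  unfold Killed
  set x : L := algebraMap _ L n / algebraMap _ L d with hx
  have h1 : x * algebraMap _ L d = algebraMap _ L n := div_mul_cancel₀ _ hd'
  have h2 : dual L E x * dualPoly L E d = dualPoly L E n := by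
    rw [← dual_emb, ← dual_emb, ← map_mul, h1]
  have h3 : (TrivSqZeroExt.inl x : TrivSqZeroExt L L) * dualPoly L E d = dualPoly L E n := by
    ext
    · rw [TrivSqZeroExt.fst_mul, TrivSqZeroExt.fst_inl, dualPoly_fst, dualPoly_fst, h1]
    · rw [TrivSqZeroExt.snd_mul, TrivSqZeroExt.fst_inl, TrivSqZeroExt.snd_inl, dualPoly_snd,
        dualPoly_snd, smul_zero, add_zero, smul_eq_mul]
      have h4 : algebraMap _ L d * algebraMap _ L (E n) = algebraMap _ L n * algebraMap _ L (E d) := by
        rw [← map_mul, ← map_mul]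
        rw [sub_eq_zero.1 h]
      rw [hx, div_mul_eq_mul_div, ← h4]
      field_simp
  have hu : IsUnit (dualPoly L E d) := dualPoly_unit (L := L) E ⟨d, mem_nonZeroDivisors_of_ne_zero hd⟩
  exact hu.mul_right_cancel (h2.trans h3.symm)

end dual

section core

variable [Fintype ω]

/-- a nonzero vector of polynomials orthogonal to all gradients -/
theorem core [DecidableEq ω] (T : Set σ) (b : σ → ω → K) (hb : ∀ v ∈ T, b v = 0)
    (R : Finset (Rat K σ)) (hR : ∀ r ∈ R, r ∈ Free K T) (h : MvPolynomial σ K)
    (hh : algebraMap _ (Rat K σ) h ∈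
      IntermediateField.adjoin K ((R : Set (Rat K σ)) ∪ var K '' T))
    (hcard : R.card < Fintype.card ω) :
    ∃ lam : ω → MvPolynomial σ K, lam ≠ 0 ∧ (∀ w, lam w ∈ supported K Tᶜ) ∧
      ∑ w, lam w * D b w h = 0 := by
  classical
  choose! nn hn dd hd hd0 hq using fun r (hr : r ∈ R) => Free.exists (hR r hr)
  let cc : Rat K σ → ω → supported K Tᶜ := fun r w =>
    if hr : r ∈ R then ⟨dd r * D b w (nn r) - nn r * D b w (dd r),
      Subalgebra.sub_mem _ (Subalgebra.mul_mem _ (hd r hr) (D_mem_supported b w (hn r hr)))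
        (Subalgebra.mul_mem _ (hn r hr) (D_mem_supported b w (hd r hr)))⟩ else 0
  obtain ⟨e⟩ : Nonempty (R ↪ ω) := by
    apply Function.Embedding.nonempty_of_card_le
    rw [Fintype.card_coe]
    exact hcard.le
  obtain ⟨w₀, hw₀⟩ : ∃ w₀, ∀ r, e r ≠ w₀ := by
    by_contra hcon
    push Not at hcon
    have h1 : Function.Surjective e := hcon
    have h2 := Fintype.card_le_of_surjective e h1
    rw [Fintype.card_coe] at h2
    omega
  let M : Matrix ω ω (supported K Tᶜ) := Matrix.of fun i w =>
    if hi : ∃ r : R, e r = i then cc (Classical.choose hi : R) w else 0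
  have hM0 : M.det = 0 := by
    apply Matrix.det_eq_zero_of_row_eq_zero w₀
    intro w
    show (if hi : ∃ r : R, e r = w₀ then cc (Classical.choose hi : R) w else 0) = 0
    rw [dif_neg]
    rintro ⟨r, hr⟩
    exact hw₀ r hr
  obtain ⟨lam, hlam0, hlam⟩ := Matrix.exists_mulVec_eq_zero_iff.2 hM0
  have hrel : ∀ r ∈ R, ∑ w, (lam w : MvPolynomial σ K) *
      (dd r * D b w (nn r) - nn r * D b w (dd r)) = 0 := by
    intro r hr
    have h1 := congrFun hlam (e ⟨r, hr⟩)
    have hi : ∃ r' : R, e r' = e ⟨r, hr⟩ := ⟨_, rfl⟩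
    have h2 : Classical.choose hi = ⟨r, hr⟩ := e.injective (Classical.choose_spec hi)
    have h3 : ∀ w, M (e ⟨r, hr⟩) w = cc r w := by
      intro w
      show (if hi : ∃ r' : R, e r' = e ⟨r, hr⟩ then cc (Classical.choose hi : R) w else 0) = _
      rw [dif_pos hi, h2]
    rw [Matrix.mulVec, dotProduct] at h1
    simp only [h3] at h1
    have h4 := congrArg (fun x : supported K Tᶜ => (x : MvPolynomial σ K)) h1
    simp only [Pi.zero_apply, ZeroMemClass.coe_zero, AddSubmonoidClass.coe_finsetSum,
      MulMemClass.coe_mul] at h4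
    rw [← h4]
    refine Finset.sum_congr rfl fun w _ => ?_
    simp only [cc, dif_pos hr]
    ring
  refine ⟨fun w => lam w, ?_, fun w => (lam w).2, ?_⟩
  · intro h0
    apply hlam0
    funext w
    exact Subtype.ext (congrFun h0 w)
  · let E : Derivation K (MvPolynomial σ K) (MvPolynomial σ K) :=
      ∑ w, (lam w : MvPolynomial σ K) • D b w
    have hE : ∀ f, E f = ∑ w, (lam w : MvPolynomial σ K) * D b w f := by
      intro f
      show (∑ w, (lam w : MvPolynomial σ K) • D b w) f = _
      have h5 := map_sum (Derivation.coeFnAddMonoidHom (R := K) (A := MvPolynomial σ K)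
        (M := MvPolynomial σ K)) (fun w => (lam w : MvPolynomial σ K) • D b w) Finset.univ
      have h6 := congrFun h5 f
      rw [Finset.sum_apply] at h6
      exact h6
    have hkill : ∀ x ∈ IntermediateField.adjoin K ((R : Set (Rat K σ)) ∪ var K '' T),
        Killed (Rat K σ) E x := by
      intro x hx
      induction hx using IntermediateField.adjoin_induction with
      | mem x hx =>
        rcases hx with hx | ⟨v, hv, rfl⟩
        · have hx' : x ∈ R := hx
          rw [hq x hx']
          apply killed_div (hd0 x hx')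
          rw [hE, hE, Finset.mul_sum, Finset.mul_sum, ← Finset.sum_sub_distrib, ← hrel x hx']
          refine Finset.sum_congr rfl fun w _ => ?_
          ring
        · show Killed (Rat K σ) E (algebraMap _ _ (X v))
          rw [killed_emb, hE]
          refine Finset.sum_eq_zero fun w _ => ?_
          rw [D_X, hb v hv, Pi.zero_apply, map_zero, mul_zero]
      | algebraMap a =>
        have h1 : algebraMap K (Rat K σ) a = algebraMap (MvPolynomial σ K) (Rat K σ) (C a) := by
          rw [IsScalarTower.algebraMap_apply K (MvPolynomial σ K) (Rat K σ)]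
          rfl
        rw [h1, killed_emb, hE]
        refine Finset.sum_eq_zero fun w _ => ?_
        rw [D_C, mul_zero]
      | add x y hx hy h1 h2 => exact h1.add h2
      | mul x y hx hy h1 h2 => exact h1.mul h2
      | inv x hx h1 => exact h1.inv
    have h1 := killed_emb.1 (hkill _ hh)
    rw [hE] at h1
    exact h1

lemma fst_aeval (P : σ → TrivSqZeroExt K (ω → K)) (f : MvPolynomial σ K) :
    (aeval P f).fst = eval (fun v => (P v).fst) f := by
  induction f using MvPolynomial.induction_on with
  | C a => rw [aeval_C, eval_C]; rfl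
  | add f g hf hg => rw [map_add, map_add, TrivSqZeroExt.fst_add, hf, hg]
  | mul_X f v hf => rw [map_mul, map_mul, TrivSqZeroExt.fst_mul, hf, aeval_X, eval_X]

lemma snd_aeval (P : σ → TrivSqZeroExt K (ω → K)) (f : MvPolynomial σ K) (w : ω) :
    (aeval P f).snd w = eval (fun v => (P v).fst) (D (fun v => (P v).snd) w f) := by
  induction f using MvPolynomial.induction_on with
  | C a =>
    rw [aeval_C, D_C, map_zero, TrivSqZeroExt.algebraMap_eq_inl, TrivSqZeroExt.snd_inl,
      Pi.zero_apply]
  | add f g hf hg => rw [map_add, TrivSqZeroExt.snd_add, Pi.add_apply, hf, hg, map_add, map_add]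
  | mul_X f v hf =>
    rw [map_mul, TrivSqZeroExt.snd_mul, Pi.add_apply, Derivation.leibniz, map_add,
      smul_eq_mul, smul_eq_mul, map_mul, map_mul, eval_X, D_X, eval_C, aeval_X, fst_aeval,
      op_smul_eq_smul, Pi.smul_apply, Pi.smul_apply, hf, smul_eq_mul, smul_eq_mul]

/-- **The gradients span a space of dimension at most `|R|`.** -/
theorem span_card (T : Set σ) {Ξ : Type*} (P : Ξ → σ → TrivSqZeroExt K (ω → K))
    (h1 : ∀ ξ, ∀ v ∈ T, (P ξ v).snd = 0) (h2 : ∀ ξ ξ' v, v ∉ T → P ξ v = P ξ' v)
    (h : MvPolynomial σ K)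
    (h3 : ∀ A : Submodule K (ω → K), (∀ ξ, (aeval (P ξ) h).snd ∈ A) → A = ⊤)
    (R : Finset (Rat K σ)) (hR : ∀ r ∈ R, r ∈ Free K T)
    (hh : algebraMap _ (Rat K σ) h ∈
      IntermediateField.adjoin K ((R : Set (Rat K σ)) ∪ var K '' T)) :
    Fintype.card ω ≤ R.card := by
  classical
  by_contra hcard
  push Not at hcard
  rcases isEmpty_or_nonempty Ξ with hΞ | ⟨⟨ξ₀⟩⟩
  · have h4 : (⊥ : Submodule K (ω → K)) = ⊤ := h3 ⊥ fun ξ => (hΞ.false ξ).elim
    have h5 : Module.finrank K (⊥ : Submodule K (ω → K)) = Fintype.card ω := by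
      rw [h4, finrank_top, Module.finrank_fintype_fun_eq_card]
    rw [finrank_bot] at h5
    omega
  -- the tangent vectors do not depend on `ξ`
  set b : σ → ω → K := fun v => (P ξ₀ v).snd with hb
  have hbT : ∀ v ∈ T, b v = 0 := fun v hv => h1 ξ₀ v hv
  have hbξ : ∀ ξ, (fun v => (P ξ v).snd) = b := by
    intro ξ
    funext v
    by_cases hv : v ∈ T
    · rw [h1 ξ v hv, hbT v hv]
    · rw [h2 ξ ξ₀ v hv]
  obtain ⟨lam, hlam0, hlams, hlam⟩ := core T b hbT R hR h hh hcard
  have hlamsub : ∀ ξ : σ → K, ∑ w, lam w * D b w (sub T ξ h) = 0 := by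
    intro ξ
    have h4 := congrArg (sub T ξ) hlam
    rw [map_sum, map_zero] at h4
    rw [← h4]
    refine Finset.sum_congr rfl fun w _ => ?_
    rw [map_mul, sub_supported ξ (hlams w), D_sub b hbT]
  -- independent gradients
  set s : Set (ω → K) := Set.range fun ξ => (aeval (P ξ) h).snd with hs
  have hs1 : Submodule.span K s = ⊤ := h3 _ fun ξ => Submodule.subset_span ⟨ξ, rfl⟩
  obtain ⟨g, hg1, _, hg3⟩ := Submodule.exists_fun_fin_finrank_span_eq K s
  have hcard' : Module.finrank K ↥(Submodule.span K s) = Fintype.card ω := by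
    rw [hs1, finrank_top]
    exact Module.finrank_fintype_fun_eq_card K
  let e : ω ≃ Fin (Module.finrank K ↥(Submodule.span K s)) :=
    (Fintype.equivFin ω).trans (finCongr hcard'.symm)
  choose ξ hξ using hg1
  have hξ' : ∀ i, (aeval (P (ξ i)) h).snd = g i := hξ
  let M : Matrix ω ω (MvPolynomial σ K) :=
    Matrix.of fun i w => D b w (sub T (fun v => (P (ξ (e i)) v).fst) h)
  have hM : M.det = 0 := by
    rw [← Matrix.exists_mulVec_eq_zero_iff]
    refine ⟨lam, hlam0, ?_⟩
    funext i
    rw [Matrix.mulVec, dotProduct, Pi.zero_apply, ← hlamsub (fun v => (P (ξ (e i)) v).fst)]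
    exact Finset.sum_congr rfl fun w _ => mul_comm _ _
  have hli : LinearIndependent K (fun i : ω => g (e i)) := hg3.comp e e.injective
  have hne : (Matrix.of fun i : ω => g (e i)).det ≠ 0 := by
    have h4 : LinearIndependent K (Matrix.of fun i : ω => g (e i)).row := hli
    rw [Matrix.linearIndependent_rows_iff_isUnit, Matrix.isUnit_iff_isUnit_det] at h4
    exact h4.ne_zero
  apply hne
  have heq : (eval fun v => (P ξ₀ v).fst).mapMatrix M = Matrix.of fun i : ω => g (e i) := by
    ext i w
    show eval (fun v => (P ξ₀ v).fst) (D b w (sub T (fun v => (P (ξ (e i)) v).fst) h)) = g (e i) w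
    rw [D_sub b hbT, eval_sub T _ _ (fun v hv => by rw [h2 ξ₀ (ξ (e i)) v hv]), ← hξ' (e i),
      snd_aeval, hbξ]
  rw [← heq, ← RingHom.map_det, hM, map_zero]

end core

end Pool.Agent.TH687.ON
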