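import Mathlib
import Pool.Agent.TH687.ON.Core

set_option autoImplicit false

/-!
# Straight-line programs with free preprocessing
-/

namespace Pool.Agent.TH687.ON

open MvPolynomial Pool.Agent.H505R3.PRE

/-- `Prog S p n A`: the set `A` consists of `S` and of the results of a straight-line program which
starts from `S` and performs `p` additions and subtractions and `n` multiplications and divisions. -/
inductive Prog {F : Type*} [Field F] (S : Set F) : ℕ → ℕ → Set F → Prop
  | start : Prog S 0 0 S
  | add {p n : ℕ} {A : Set F} {a b c : F} : Prog S p n A → a ∈ A → b ∈ A →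
      (c = a + b ∨ c = a - b) → Prog S (p + 1) n (insert c A)
  | mul {p n : ℕ} {A : Set F} {a b c : F} : Prog S p n A → a ∈ A → b ∈ A →
      (c = a * b ∨ c = a / b) → Prog S p (n + 1) (insert c A)

section general

variable {F : Type*} [Field F] {S : Set F}

lemma Prog.subset {p n : ℕ} {A : Set F} (h : Prog S p n A) : S ⊆ A := by
  induction h with
  | start => exact subset_rfl
  | add _ _ _ _ ih => exact ih.trans (Set.subset_insert _ _)
  | mul _ _ _ _ ih => exact ih.trans (Set.subset_insert _ _)

lemma Prog.union {p n : ℕ} {A : Set F} (h : Prog S p n A) {p' n' : ℕ} {A' : Set F}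
    (h' : Prog S p' n' A') : ∃ B, A ⊆ B ∧ A' ⊆ B ∧ Prog S (p + p') (n + n') B := by
  induction h' with
  | start => exact ⟨A, subset_rfl, h.subset, h⟩
  | add _ ha hb hc ih =>
    obtain ⟨B, h1, h2, h3⟩ := ih
    exact ⟨_, h1.trans (Set.subset_insert _ _), Set.insert_subset_insert h2,
      h3.add (h2 ha) (h2 hb) hc⟩
  | mul _ ha hb hc ih =>
    obtain ⟨B, h1, h2, h3⟩ := ih
    exact ⟨_, h1.trans (Set.subset_insert _ _), Set.insert_subset_insert h2,
      h3.mul (h2 ha) (h2 hb) hc⟩

lemma Prog.mono {S' : Set F} (hS : S ⊆ S') {p n : ℕ} {A : Set F} (h : Prog S p n A) :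
    ∃ A', A ⊆ A' ∧ Prog S' p n A' := by
  induction h with
  | start => exact ⟨S', hS, Prog.start⟩
  | add _ ha hb hc ih =>
    obtain ⟨B, h2, h3⟩ := ih
    exact ⟨_, Set.insert_subset_insert h2, h3.add (h2 ha) (h2 hb) hc⟩
  | mul _ ha hb hc ih =>
    obtain ⟨B, h2, h3⟩ := ih
    exact ⟨_, Set.insert_subset_insert h2, h3.mul (h2 ha) (h2 hb) hc⟩

end general

section params

variable {K σ : Type*} [Field K] {T : Set σ}

lemma Free.one : (1 : Rat K σ) ∈ Free K T :=
  ⟨1, Subalgebra.one_mem _, 1, Subalgebra.one_mem _, by simp⟩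

/-- the field generated by `R` and the variables of `T` -/
noncomputable abbrev gen (T : Set σ) (R : Finset (Rat K σ)) : IntermediateField K (Rat K σ) :=
  IntermediateField.adjoin K ((R : Set (Rat K σ)) ∪ var K '' T)

lemma gen_mono {R R' : Finset (Rat K σ)} (h : R ⊆ R') : gen T R ≤ gen T R' :=
  IntermediateField.adjoin.mono _ _ _ (Set.union_subset_union_left _ (Finset.coe_subset.2 h))

lemma mem_gen {R : Finset (Rat K σ)} {r : Rat K σ} (h : r ∈ R) : r ∈ gen T R :=
  IntermediateField.subset_adjoin _ _ (Or.inl h)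

/-- every result of a program with `p` additions is a free element times an element of a field with
at most `p` free parameters -/
theorem Prog.adds [DecidableEq (Rat K σ)] {p n : ℕ} {A : Set (Rat K σ)} (h : Prog (Avail K T) p n A) :
    ∃ R : Finset (Rat K σ), (∀ r ∈ R, r ∈ Free K T) ∧ R.card ≤ p ∧
      ∀ x ∈ A, ∃ g ∈ Free K T, ∃ u ∈ gen T R, x = g * u := by
  induction h with
  | start =>
    refine ⟨∅, by simp, by simp, ?_⟩
    rintro x (hx | ⟨v, hv, rfl⟩)
    · exact ⟨x, hx, 1, one_mem _, (mul_one x).symm⟩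
    · exact ⟨1, Free.one, var K v, IntermediateField.subset_adjoin _ _ (Or.inr ⟨v, hv, rfl⟩),
        (one_mul _).symm⟩
  | @add p n A a b c _ ha hb hc ih =>
    obtain ⟨R, h1, h2, h3⟩ := ih
    obtain ⟨g, hg, u, hu, rfl⟩ := h3 a ha
    obtain ⟨g', hg', u', hu', rfl⟩ := h3 b hb
    by_cases hg0 : g = 0
    · refine ⟨R, h1, by omega, ?_⟩
      rintro x (rfl | hx)
      · rcases hc with hc | hc
        · exact ⟨g', hg', u', hu', by rw [hc, hg0]; ring⟩
        · exact ⟨g', hg', -u', neg_mem hu', by rw [hc, hg0]; ring⟩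
      · exact h3 x hx
    · have hq : g' / g ∈ Free K T := Free.op hg' hg (Or.inr (Or.inr (Or.inr rfl)))
      refine ⟨insert (g' / g) R, ?_, ?_, ?_⟩
      · intro r hr
        rcases Finset.mem_insert.1 hr with rfl | hr
        · exact hq
        · exact h1 r hr
      · exact (Finset.card_insert_le _ _).trans (by omega)
      · have hle : gen T R ≤ gen T (insert (g' / g) R) := gen_mono (Finset.subset_insert _ _)
        rintro x (rfl | hx)
        · have hqm : g' / g ∈ gen T (insert (g' / g) R) := mem_gen (Finset.mem_insert_self _ _)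
          rcases hc with hc | hc
          · refine ⟨g, hg, u + g' / g * u', add_mem (hle hu) (mul_mem hqm (hle hu')), ?_⟩
            rw [hc]; field_simp
          · refine ⟨g, hg, u - g' / g * u', sub_mem (hle hu) (mul_mem hqm (hle hu')), ?_⟩
            rw [hc]; field_simp
        · obtain ⟨g1, hg1, u1, hu1, h4⟩ := h3 x hx
          exact ⟨g1, hg1, u1, hle hu1, h4⟩
  | @mul p n A a b c _ ha hb hc ih =>
    obtain ⟨R, h1, h2, h3⟩ := ih
    obtain ⟨g, hg, u, hu, rfl⟩ := h3 a ha
    obtain ⟨g', hg', u', hu', rfl⟩ := h3 b hb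
    refine ⟨R, h1, h2, ?_⟩
    rintro x (rfl | hx)
    · rcases hc with hc | hc
      · exact ⟨g * g', Free.op hg hg' (Or.inr (Or.inr (Or.inl rfl))), u * u', mul_mem hu hu',
          by rw [hc]; ring⟩
      · exact ⟨g / g', Free.op hg hg' (Or.inr (Or.inr (Or.inr rfl))), u / u', div_mem hu hu',
          by rw [hc]; rw [mul_div_mul_comm]⟩
    · exact h3 x hx

/-- every result of a program with `n` multiplications is the sum of a free element and an element
of a field with at most `2 n` free parameters -/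
theorem Prog.muls [DecidableEq (Rat K σ)] {p n : ℕ} {A : Set (Rat K σ)} (h : Prog (Avail K T) p n A) :
    ∃ R : Finset (Rat K σ), (∀ r ∈ R, r ∈ Free K T) ∧ R.card ≤ 2 * n ∧
      ∀ x ∈ A, ∃ g ∈ Free K T, ∃ u ∈ gen T R, x = g + u := by
  induction h with
  | start =>
    refine ⟨∅, by simp, by simp, ?_⟩
    rintro x (hx | ⟨v, hv, rfl⟩)
    · exact ⟨x, hx, 0, zero_mem _, (add_zero x).symm⟩
    · exact ⟨0, Free.zero, var K v, IntermediateField.subset_adjoin _ _ (Or.inr ⟨v, hv, rfl⟩),
        (zero_add _).symm⟩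
  | @add p n A a b c _ ha hb hc ih =>
    obtain ⟨R, h1, h2, h3⟩ := ih
    obtain ⟨g, hg, u, hu, rfl⟩ := h3 a ha
    obtain ⟨g', hg', u', hu', rfl⟩ := h3 b hb
    refine ⟨R, h1, h2, ?_⟩
    rintro x (rfl | hx)
    · rcases hc with hc | hc
      · exact ⟨g + g', Free.op hg hg' (Or.inl rfl), u + u', add_mem hu hu', by rw [hc]; ring⟩
      · exact ⟨g - g', Free.op hg hg' (Or.inr (Or.inl rfl)), u - u', sub_mem hu hu',
          by rw [hc]; ring⟩
    · exact h3 x hx
  | @mul p n A a b c _ ha hb hc ih =>
    obtain ⟨R, h1, h2, h3⟩ := ih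
    obtain ⟨g, hg, u, hu, rfl⟩ := h3 a ha
    obtain ⟨g', hg', u', hu', rfl⟩ := h3 b hb
    refine ⟨insert g (insert g' R), ?_, ?_, ?_⟩
    · intro r hr
      rcases Finset.mem_insert.1 hr with rfl | hr
      · exact hg
      · rcases Finset.mem_insert.1 hr with rfl | hr
        · exact hg'
        · exact h1 r hr
    · have h4 := Finset.card_insert_le g (insert g' R)
      have h5 := Finset.card_insert_le g' R
      omega
    · have hle : gen T R ≤ gen T (insert g (insert g' R)) :=
        gen_mono ((Finset.subset_insert _ _).trans (Finset.subset_insert _ _))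
      have hgm : g ∈ gen T (insert g (insert g' R)) := mem_gen (Finset.mem_insert_self _ _)
      have hgm' : g' ∈ gen T (insert g (insert g' R)) :=
        mem_gen (Finset.mem_insert_of_mem (Finset.mem_insert_self _ _))
      have ha' : g + u ∈ gen T (insert g (insert g' R)) := add_mem hgm (hle hu)
      have hb' : g' + u' ∈ gen T (insert g (insert g' R)) := add_mem hgm' (hle hu')
      rintro x (rfl | hx)
      · rcases hc with hc | hc
        · exact ⟨0, Free.zero, _, mul_mem ha' hb', by rw [hc, zero_add]⟩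
        · exact ⟨0, Free.zero, _, div_mem ha' hb', by rw [hc, zero_add]⟩
      · obtain ⟨g1, hg1, u1, hu1, h4⟩ := h3 x hx
        exact ⟨g1, hg1, u1, hle hu1, h4⟩

/-- parameters of a polynomial computed with `p` additions and `n` multiplications -/
theorem Prog.params {p n : ℕ} {A : Set (Rat K σ)} (h : Prog (Avail K T) p n A)
    {x : Rat K σ} (hx : x ∈ A) :
    (∃ R : Finset (Rat K σ), (∀ r ∈ R, r ∈ Free K T) ∧ R.card ≤ p + 1 ∧ x ∈ gen T R) ∧
      (∃ R : Finset (Rat K σ), (∀ r ∈ R, r ∈ Free K T) ∧ R.card ≤ 2 * n + 1 ∧ x ∈ gen T R) := by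
  classical
  constructor
  · obtain ⟨R, h1, h2, h3⟩ := h.adds
    obtain ⟨g, hg, u, hu, rfl⟩ := h3 x hx
    refine ⟨insert g R, ?_, (Finset.card_insert_le _ _).trans (by omega), ?_⟩
    · intro r hr
      rcases Finset.mem_insert.1 hr with rfl | hr
      · exact hg
      · exact h1 r hr
    · exact mul_mem (mem_gen (Finset.mem_insert_self _ _))
        (gen_mono (Finset.subset_insert _ _) hu)
  · obtain ⟨R, h1, h2, h3⟩ := h.muls
    obtain ⟨g, hg, u, hu, rfl⟩ := h3 x hx
    refine ⟨insert g R, ?_, (Finset.card_insert_le _ _).trans (by omega), ?_⟩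
    · intro r hr
      rcases Finset.mem_insert.1 hr with rfl | hr
      · exact hg
      · exact h1 r hr
    · exact add_mem (mem_gen (Finset.mem_insert_self _ _))
        (gen_mono (Finset.subset_insert _ _) hu)

end params

section horner

variable {K σ : Type*} [Field K]

/-- Horner's rule for multilinear polynomials -/
theorem horner [DecidableEq σ] (T : Set σ) (T' : Finset σ) (hT : ∀ v ∈ T', v ∈ T)
    (c : Finset σ → Rat K σ) (hc : ∀ S, c S ∈ Free K T) :
    ∃ A, Prog (Avail K T) (2 ^ T'.card - 1) (2 ^ T'.card - 1) A ∧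
      ∑ S ∈ T'.powerset, c S * ∏ v ∈ S, var K v ∈ A := by
  induction T' using Finset.induction_on generalizing c with
  | empty =>
    refine ⟨_, Prog.start, ?_⟩
    simp only [Finset.powerset_empty, Finset.sum_singleton, Finset.prod_empty, mul_one]
    exact Or.inl (hc _)
  | insert a s ha ih =>
    obtain ⟨A, h1, h2⟩ := ih (fun v hv => hT v (Finset.mem_insert_of_mem hv)) c hc
    obtain ⟨A', h1', h2'⟩ := ih (fun v hv => hT v (Finset.mem_insert_of_mem hv))
      (fun S => c (insert a S)) (fun S => hc _)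
    obtain ⟨B, h3, h4, h5⟩ := h1.union h1'
    have haT : var K a ∈ B := h5.subset (Or.inr ⟨a, hT a (Finset.mem_insert_self _ _), rfl⟩)
    have h6 := h5.mul haT (h4 h2') (Or.inl rfl)
    have h7 := h6.add (Set.mem_insert_of_mem _ (h3 h2)) (Set.mem_insert _ _) (Or.inl rfl)
    have hcount : 2 ^ s.card - 1 + (2 ^ s.card - 1) + 1 = 2 ^ (insert a s).card - 1 := by
      rw [Finset.card_insert_of_notMem ha, pow_succ]
      have := Nat.one_le_two_pow (n := s.card)
      omega
    rw [hcount] at h7
    refine ⟨_, h7, Set.mem_insert_iff.2 (Or.inl ?_)⟩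
    rw [Finset.sum_powerset_insert ha, Finset.mul_sum]
    congr 1
    refine Finset.sum_congr rfl fun S hS => ?_
    have haS : a ∉ S := fun h => ha (Finset.mem_powerset.1 hS h)
    rw [Finset.prod_insert haS]
    ring

end horner

end Pool.Agent.TH687.ON
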